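import Pool.Agent.Y744.RA.Shift

/-!
# Irreducible right alternative bimodules over `M₂(F)` from the free algebra of rank three

For every field `F`, of any characteristic, and every module `Y` over the free associative algebra
`F⟨x, s, z⟩` the space `M(Y)` of 2 by 2 matrices with entries in `Y` is made into a unital right
alternative bimodule over `M₂(F)`.  It is irreducible exactly when `Y` is irreducible and is not
isomorphic to one explicit two-dimensional module, and `M(Y)`, `M(Y')` are isomorphic exactly when
`Y`, `Y'` are.  So the determination of the finite-dimensional irreducible right alternative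
bimodules over `M₂(F)` contains the determination of the finite-dimensional irreducible modules over
the free algebra in three variables, over every field.
-/

namespace Pool.Agent.Results.MP_cf4f28_al.FreeAlgebraFamily

open Pool.Agent.Y744.RA

universe u v w

/-- (1) `M(Y)` is a unital right alternative bimodule, four times as large as `Y`, and it is
irreducible if and only if `Y` is an irreducible module over the free algebra in three variables
not isomorphic to the exceptional two-dimensional one.  (2) `M(Y)` and `M(Y')` are isomorphic if and
only if `Y` and `Y'` are.  (3) For every `n ≥ 1` there are at least `|F|` isomorphism classes of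
unital irreducible right alternative bimodules of dimension `4 n`. -/
theorem result (F : Type u) [Field F] :
    (∀ Y : FreeMod.{u, v} F,
      (bim Y).IsRightAlternative ∧ (bim Y).IsUnital ∧
      (FiniteDimensional F Y.carrier → FiniteDimensional F (bim Y).carrier) ∧
      Module.finrank F (bim Y).carrier = 4 * Module.finrank F Y.carrier ∧
      ((bim Y).IsIrreducible ↔ Y.IsIrreducible ∧ ¬ Y.Iso (FreeMod.exc F))) ∧
    (∀ (Y : FreeMod.{u, v} F) (Y' : FreeMod.{u, w} F), (bim Y).Iso (bim Y') ↔ Y.Iso Y') ∧
    (∀ n : ℕ, 0 < n → ∃ f : F → Bimodule.{u, u} F,
      (∀ t, (f t).IsRightAlternative ∧ (f t).IsUnital ∧ (f t).IsIrreducible ∧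
        FiniteDimensional F (f t).carrier ∧ Module.finrank F (f t).carrier = 4 * n) ∧
      ∀ t t', (f t).Iso (f t') → t = t') :=
  ⟨fun Y => ⟨bim_rightAlt Y, bim_unital Y, fun _ => bim_finite Y, bim_finrank Y,
      bim_irreducible_iff⟩,
    fun _ _ => bim_iso_iff, fun n hn => all_dimensions n hn⟩

end Pool.Agent.Results.MP_cf4f28_al.FreeAlgebraFamily
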